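import Mathlib

/-!
Reeb flows on the unit sphere `S` of a complex inner product space `E` (a copy of `ℂ^n` with its
Hermitian inner product, conjugate linear in the first variable; its real part is the Euclidean
inner product and its imaginary part is the symplectic form `∑ dx_j ∧ dy_j = dλ₀`).
-/

set_option autoImplicit false

namespace Pool.Agent.H30.PEH

open scoped ContDiff

variable {E : Type} [NormedAddCommGroup E] [InnerProductSpace ℂ E]

/-- The derivative of `f` at `z` in the direction `v`. -/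
noncomputable def D (f : E → ℝ) (z v : E) : ℝ := fderiv ℝ f z v

/-- The Euclidean inner product `∑ (x_j x'_j + y_j y'_j)`. -/
noncomputable def dot (v w : E) : ℝ := (inner ℂ v w).re

/-- The symplectic form `dλ₀ = ∑ dx_j ∧ dy_j`; so `λ₀ = symp z · / 2` at the point `z`. -/
noncomputable def symp (v w : E) : ℝ := (inner ℂ v w).im

/-- `R` is the Reeb vector at `z ∈ S` of `α = f λ₀` restricted to `S`: `R` is tangent to `S`,
`α(R) = 1` and `dα(R, v) = (df ∧ λ₀ + f dλ₀)(R, v) = 0` for all `v` tangent to `S` at `z`. -/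
def Reeb (f : E → ℝ) (z R : E) : Prop :=
  dot z R = 0 ∧ f z * (symp z R / 2) = 1 ∧
    ∀ v, dot z v = 0 → D f z R * (symp z v / 2) - D f z v * (symp z R / 2) + f z * symp R v = 0

/-- `φ` maps `S` into `S` and is there the flow of the Reeb vector field of `α = f λ₀`. -/
def Flow (f : E → ℝ) (φ : ℝ → E → E) : Prop :=
  ∀ z, ‖z‖ = 1 → φ 0 z = z ∧ ∀ t, ‖φ t z‖ = 1 ∧
    ∃ R, Reeb f (φ t z) R ∧ HasDerivAt (fun s => φ s z) R t

/-- Complete integrability of the Reeb flow of `α = f λ₀` on `S`. The symplectization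
`(S × (0,∞), d(r α))` is identified with `(E ∖ 0, dλ₀)` by `(x, r) ↦ √(r f(x)) x`; then `r` becomes
`‖z‖² / f(z/‖z‖)` and homogeneity of degree one in `r` becomes homogeneity of degree two in `z`.
There are `n` smooth such functions, one of them `r`, pairwise Poisson-commuting (the Hamiltonian
vector `X` of each is in the kernel of the differentials of all), with differentials linearly
independent on an open dense set. -/
def Integrable (f : E → ℝ) (n : ℕ) : Prop :=
  ∃ F : Fin n → E → ℝ,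
    (∃ i, ∀ z, z ≠ 0 → F i z = ‖z‖ ^ 2 / f ((‖z‖ : ℂ)⁻¹ • z)) ∧
    (∀ i, ContDiffOn ℝ ∞ (F i) {0}ᶜ) ∧
    (∀ i (t : ℝ) z, 0 < t → F i ((t : ℂ) • z) = t ^ 2 * F i z) ∧
    (∀ i z, z ≠ 0 → ∃ X, (∀ v, D (F i) z v = symp X v) ∧ ∀ j, D (F j) z X = 0) ∧
    ∃ U : Set E, IsOpen U ∧ Dense U ∧ (0 : E) ∉ U ∧
      ∀ z ∈ U, ∀ c : Fin n → ℝ, (∀ v, ∑ i, c i * D (F i) z v = 0) → c = 0

end Pool.Agent.H30.PEH
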