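import Pool.Agent.H73.Emb6
import Pool.Agent.H30.PEH.Defs

set_option autoImplicit false

namespace Pool.Agent.H30.PEH

open scoped ContDiff
open Pool.Agent.H73 (En)

section
variable {n : ℕ}

lemma inner_En (v w : En n) : inner ℂ v w = ∑ j, inner ℂ (v j) (w j) := PiLp.inner_apply v w

lemma dot_En (v w : En n) : dot v w = Pool.Agent.H73.dotE v w := by
  unfold dot Pool.Agent.H73.dotE
  rw [inner_En, Complex.re_sum]
  refine Finset.sum_congr rfl fun j _ => ?_
  rw [RCLike.inner_apply]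
  simp
  ring

lemma symp_En (v w : En n) : symp v w = Pool.Agent.H73.om0 v w := by
  unfold symp Pool.Agent.H73.om0
  rw [inner_En, Complex.im_sum]
  refine Finset.sum_congr rfl fun j _ => ?_
  rw [RCLike.inner_apply]
  simp
  ring

lemma lam_En (v w : En n) : symp v w / 2 = Pool.Agent.H73.lam0 v w := by
  rw [symp_En]
  unfold Pool.Agent.H73.om0 Pool.Agent.H73.lam0
  ring

end

variable {E : Type} [NormedAddCommGroup E] [InnerProductSpace ℂ E] {n : ℕ}

section
variable (e : E ≃ₗᵢ[ℂ] En n)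

lemma dot_e (v w : E) : dot v w = Pool.Agent.H73.dotE (e v) (e w) := by
  rw [← dot_En]; unfold dot; rw [LinearIsometryEquiv.inner_map_map]

lemma symp_e (v w : E) : symp v w = Pool.Agent.H73.om0 (e v) (e w) := by
  rw [← symp_En]; unfold symp; rw [LinearIsometryEquiv.inner_map_map]

lemma lam_e (v w : E) : symp v w / 2 = Pool.Agent.H73.lam0 (e v) (e w) := by
  rw [← lam_En]; unfold symp; rw [LinearIsometryEquiv.inner_map_map]

/-- `e` as a real continuous linear equivalence -/
noncomputable def eR : E ≃L[ℝ] En n :=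
  { e.toLinearEquiv.restrictScalars ℝ with
    continuous_toFun := e.continuous
    continuous_invFun := e.symm.continuous }

lemma eR_apply (z : E) : eR e z = e z := rfl

lemma D_e (g : En n → ℝ) (z v : E) : D (fun z => g (e z)) z v = fderiv ℝ g (e z) (e v) := by
  unfold D
  have h : (fun z => g (e z)) = g ∘ (eR e) := rfl
  rw [h, ContinuousLinearEquiv.comp_right_fderiv]
  rfl

lemma reeb_e {f : En n → ℝ} {z R : E} (h : Pool.Agent.H73.IsReeb f (e z) (e R)) :
    Reeb (fun z => f (e z)) z R := by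
  obtain ⟨h1, h2, h3⟩ := h
  refine ⟨by rw [dot_e e]; exact h1, by rw [lam_e e]; exact h2, fun v hv => ?_⟩
  rw [lam_e e, lam_e e, symp_e e, D_e, D_e]
  exact h3 (e v) (by rw [← dot_e e]; exact hv)

lemma norm_e (z : E) : ‖e z‖ = ‖z‖ := e.norm_map z

open Classical in
/-- the transported flow -/
noncomputable def flow (φ : ℝ → Metric.sphere (0 : En n) 1 → Metric.sphere (0 : En n) 1) (t : ℝ)
    (z : E) : E :=
  if h : ‖z‖ = 1 then e.symm (φ t ⟨e z, by rw [mem_sphere_zero_iff_norm, norm_e, h]⟩ : En n)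
  else z

lemma flow_of {φ : ℝ → Metric.sphere (0 : En n) 1 → Metric.sphere (0 : En n) 1} (t : ℝ)
    (z : E) (h : ‖z‖ = 1) :
    flow e φ t z = e.symm (φ t ⟨e z, by rw [mem_sphere_zero_iff_norm, norm_e, h]⟩ : En n) := by
  unfold flow; rw [dif_pos h]

lemma flow_flow {f : En n → ℝ}
    {φ : ℝ → Metric.sphere (0 : En n) 1 → Metric.sphere (0 : En n) 1}
    (h : Pool.Agent.H73.IsReebFlow f φ) : Flow (fun z => f (e z)) (flow e φ) := by
  obtain ⟨h0, h1⟩ := h
  intro z hz
  refine ⟨by rw [flow_of e 0 z hz, h0]; simp, fun t => ⟨?_, ?_⟩⟩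
  · rw [flow_of e t z hz, LinearIsometryEquiv.norm_map]
    exact mem_sphere_zero_iff_norm.1 (φ t _).2
  · obtain ⟨R, hR, hd⟩ := h1 t ⟨e z, by rw [mem_sphere_zero_iff_norm, norm_e, hz]⟩
    refine ⟨e.symm R, reeb_e e ?_, ?_⟩
    · rw [flow_of e t z hz]; simpa using hR
    · have h2 := ((eR e).symm : En n →L[ℝ] E).hasFDerivAt.comp_hasDerivAt t hd
      have h3 : (fun s => flow e φ s z) = fun s => (eR e).symm (φ s ⟨e z, by
          rw [mem_sphere_zero_iff_norm, norm_e, hz]⟩ : En n) := by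
        funext s; rw [flow_of e s z hz]; rfl
      rw [h3]
      exact h2

lemma entropy_flow {φ : ℝ → Metric.sphere (0 : En n) 1 → Metric.sphere (0 : En n) 1}
    (h : 0 < Dynamics.coverEntropy (φ 1) Set.univ) :
    0 < Dynamics.coverEntropy (flow e φ 1) {z : E | ‖z‖ = 1} := by
  set ψ : Metric.sphere (0 : En n) 1 → E := fun x => e.symm (x : En n) with hψ
  have hs : Function.Semiconj ψ (φ 1) (flow e φ 1) := by
    intro x
    have hx : ‖ψ x‖ = 1 := by
      rw [hψ]; simp only [LinearIsometryEquiv.norm_map]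
      exact mem_sphere_zero_iff_norm.1 x.2
    rw [flow_of e 1 _ hx]
    simp [hψ]
  have hi : ψ '' Set.univ = {z : E | ‖z‖ = 1} := by
    ext z
    constructor
    · rintro ⟨x, -, rfl⟩
      show ‖ψ x‖ = 1
      rw [hψ]; simp only [LinearIsometryEquiv.norm_map]
      exact mem_sphere_zero_iff_norm.1 x.2
    · intro hz
      exact ⟨⟨e z, by rw [mem_sphere_zero_iff_norm, norm_e]; exact hz⟩, trivial, by simp [hψ]⟩
  have hu : UniformSpace.comap ψ inferInstance = (inferInstance : UniformSpace (Metric.sphere (0 : En n) 1)) := by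
    have : Isometry ψ := e.symm.isometry.comp isometry_subtype_coe
    exact this.isUniformInducing.comap_uniformSpace
  rw [← hi, Dynamics.coverEntropy_image_of_comap _ hs, hu]
  exact h

lemma integrable_e {f : En n → ℝ} (h : Pool.Agent.H73.CompletelyIntegrable f) :
    Integrable (fun z => f (e z)) n := by
  obtain ⟨F, ⟨i, hi⟩, hF, hh, hp, U, hU, hUd, h0, hl⟩ := h
  have hne : ∀ z : E, z ≠ 0 → e z ≠ 0 := fun z hz h => hz (by simpa using h)
  refine ⟨fun i z => F i (e z), ⟨i, fun z hz => ?_⟩, fun i => ?_, fun i t z ht => ?_,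
    fun i z hz => ?_, e ⁻¹' U, hU.preimage e.continuous, ?_, ?_, fun z hz c hc => ?_⟩
  · show F i (e z) = ‖z‖ ^ 2 / f (e ((‖z‖ : ℂ)⁻¹ • z))
    rw [hi _ (hne z hz), norm_e, map_smul, ← Complex.ofReal_inv]
    rfl
  · refine (hF i).comp (eR e).contDiff.contDiffOn fun z hz => ?_
    exact hne z hz
  · show F i (e ((t : ℂ) • z)) = t ^ 2 * F i (e z)
    rw [← hh i t (e z) ht, map_smul]
    rfl
  · refine ⟨e.symm (-Pool.Agent.H73.XE (F i) (e z)), fun v => ?_, fun j => ?_⟩
    · rw [D_e, symp_e e, e.apply_symm_apply, Pool.Agent.H73.clm_En_expand]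
      unfold Pool.Agent.H73.om0
      refine Finset.sum_congr rfl fun j _ => ?_
      simp only [PiLp.neg_apply, Complex.neg_re, Complex.neg_im, Pool.Agent.H73.XE_re,
        Pool.Agent.H73.XE_im]
      ring
    · rw [D_e, e.apply_symm_apply, Pool.Agent.H73.clm_En_expand, ← hp j i (e z) (hne z hz)]
      unfold Pool.Agent.H73.pbE
      refine Finset.sum_congr rfl fun k _ => ?_
      simp only [PiLp.neg_apply, Complex.neg_re, Complex.neg_im, Pool.Agent.H73.XE_re,
        Pool.Agent.H73.XE_im]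
      ring
  · exact hUd.preimage e.toHomeomorph.isOpenMap
  · simpa using h0
  · have h1 := Fintype.linearIndependent_iff.1 (hl _ hz) c ?_
    · funext i; exact h1 i
    · ext w
      have h2 := hc (e.symm w)
      simp only [D_e, e.apply_symm_apply] at h2
      simpa using h2

end

theorem main (E : Type) [NormedAddCommGroup E] [InnerProductSpace ℂ E] (n : ℕ) (hn : 6 ≤ n)
    (hE : Module.finrank ℂ E = n) : ∃ f : E → ℝ,
    (∀ z, z ≠ 0 → 0 < f z) ∧ ContDiffOn ℝ ∞ f {0}ᶜ ∧ Integrable f n ∧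
    ∃ φ : ℝ → E → E, Flow f φ ∧ 0 < Dynamics.coverEntropy (φ 1) {z | ‖z‖ = 1} := by
  have : FiniteDimensional ℂ E := FiniteDimensional.of_finrank_pos (by omega)
  subst hE
  let e : E ≃ₗᵢ[ℂ] En (Module.finrank ℂ E) := (stdOrthonormalBasis ℂ E).repr
  obtain ⟨f, hpos, hf, hint, φ, hφ, hent⟩ := Pool.Agent.H73.main_explicit _ hn
  have hne : ∀ z : E, z ≠ 0 → e z ≠ 0 := fun z hz h => hz (by simpa using h)
  refine ⟨fun z => f (e z), fun z hz => hpos _ (hne z hz), ?_, integrable_e e hint, flow e φ,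
    flow_flow e hφ, entropy_flow e hent⟩
  refine hf.comp (eR e).contDiff.contDiffOn fun z hz => ?_
  exact hne z hz

end Pool.Agent.H30.PEH
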